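import Pool.Agent.H91.EF.EF1
import Pool.Agent.H65.EF.Stokes
import Pool.Agent.H97.EF.EF3
import Pool.Agent.H63.EF.EF5
import Pool.Agent.H23.EF.EF4

namespace Pool.Agent.H62.EF

open Finset

/-! ### Elementary facts -/

theorem sg_inj {n : ℕ} (a : Fin (n + 1) → Fin (n + 1)) (h : sg a ≠ 0) : Function.Injective a := by
  intro i j hij
  by_contra hne
  apply h
  unfold sg
  apply Matrix.det_zero_of_row_eq hne
  ext l
  simp [hij]

theorem S_ne {n d : ℕ} {X : Type*} {lam : X → Fin d → Fin (n + 1)} {y : ℕ → X}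
    (h : S lam y ≠ 0) (c : Fin d) :
    Function.Injective (fun j : Fin (n + 1) => lam (y (n * (c : ℕ) + (j : ℕ))) c) := by
  apply sg_inj
  unfold S at h
  exact (Finset.prod_ne_zero_iff.mp h) c (Finset.mem_univ _)

theorem pos_lt {n d : ℕ} (π : Equiv.Perm (Fin d × Fin n)) (x : Fin d × Fin n) :
    pos π x < d * n := (finProdFinEquiv (π.symm x) : Fin (d * n)).isLt

theorem pos_inj {n d : ℕ} (π : Equiv.Perm (Fin d × Fin n)) : Function.Injective (pos π) := by
  intro x y h
  unfold pos at h
  have h1 := Fin.ext h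
  have h2 := finProdFinEquiv.injective h1
  exact π.symm.injective h2

theorem pos_surj {n d : ℕ} (π : Equiv.Perm (Fin d × Fin n)) (k : ℕ) (hk : k < d * n) :
    ∃ x, pos π x = k := by
  refine ⟨π (finProdFinEquiv.symm ⟨k, hk⟩), ?_⟩
  unfold pos
  rw [Equiv.symm_apply_apply, Equiv.apply_symm_apply]

theorem path_zero {n d : ℕ} (v : V n d) (π : Equiv.Perm (Fin d × Fin n)) : path v π 0 = v := by
  funext i c
  simp [path]

theorem path_le {n d : ℕ} (v : V n d) (π : Equiv.Perm (Fin d × Fin n)) (k : ℕ) (i : Fin n)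
    (c : Fin d) : v i c ≤ path v π k i c ∧ path v π k i c ≤ v i c + 1 := by
  unfold path
  split_ifs <;> constructor <;> omega

/-- number of coordinates raised before time k -/
theorem sum_pos {n d : ℕ} (π : Equiv.Perm (Fin d × Fin n)) (k : ℕ) (hk : k ≤ d * n) :
    ∑ x : Fin d × Fin n, (if pos π x < k then (1 : ℤ) else 0) = k := by
  have h1 : ∑ x : Fin d × Fin n, (if pos π x < k then (1 : ℤ) else 0)
      = ∑ x : Fin d × Fin n, (if (finProdFinEquiv x : Fin (d * n)).val < k then (1 : ℤ) else 0) := by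
    apply Fintype.sum_equiv π.symm
    intro x
    rfl
  rw [h1]
  have h2 : ∑ x : Fin d × Fin n, (if (finProdFinEquiv x : Fin (d * n)).val < k then (1 : ℤ) else 0)
      = ∑ x : Fin (d * n), (if x.val < k then (1 : ℤ) else 0) := by
    apply Fintype.sum_equiv finProdFinEquiv
    intro x
    rfl
  rw [h2, Finset.sum_boole]
  have h3 : (Finset.univ.filter (fun x : Fin (d * n) => x.val < k)).card = k := by
    have : (Finset.univ.filter (fun x : Fin (d * n) => x.val < k)).map Fin.valEmbedding
        = Finset.range k := by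
      ext x
      simp only [Finset.mem_map, Finset.mem_filter, Finset.mem_univ, true_and,
        Fin.valEmbedding_apply, Finset.mem_range]
      constructor
      · rintro ⟨a, ha, rfl⟩
        exact ha
      · intro hx
        exact ⟨⟨x, by omega⟩, hx, rfl⟩
    rw [← Finset.card_map Fin.valEmbedding, this, Finset.card_range]
  rw [h3]

theorem path_sum_all {n d : ℕ} (v : V n d) (π : Equiv.Perm (Fin d × Fin n)) (k : ℕ)
    (hk : k ≤ d * n) : ∑ i, ∑ c, path v π k i c = ∑ i, ∑ c, v i c + k := by
  unfold path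
  simp only [Finset.sum_add_distrib]
  congr 1
  rw [← sum_pos π k hk, Fintype.sum_prod_type, Finset.sum_comm]

/-- the sum of one coordinate -/
theorem path_sum_le {n d : ℕ} (v : V n d) (π : Equiv.Perm (Fin d × Fin n)) (k k' : ℕ)
    (hk : k ≤ k') (c : Fin d) : ∑ i, path v π k i c ≤ ∑ i, path v π k' i c := by
  apply Finset.sum_le_sum
  intro i _
  unfold path
  split_ifs <;> omega

theorem path_sum_ub {n d : ℕ} (v : V n d) (π : Equiv.Perm (Fin d × Fin n)) (k : ℕ)
    (c : Fin d) : ∑ i, path v π k i c ≤ ∑ i, v i c + n := by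
  have h : ∑ i, path v π k i c ≤ ∑ i : Fin n, (v i c + 1) :=
    Finset.sum_le_sum (fun i _ => (path_le v π k i c).2)
  simpa [Finset.sum_add_distrib] using h

theorem lab_eq_zero {n d : ℕ} (g : V n d → Fin d → Fin n) (v : V n d) (c : Fin d) :
    lab g v c = 0 ↔ (∑ i, v i c) < 0 := by
  unfold lab
  split_ifs with h
  · simp [h]
  · simp only [h, iff_false]
    exact Fin.succ_ne_zero _

/-- consequences of `S ≠ 0` on a Kuhn simplex -/
theorem S_path_first {n d : ℕ} {g : V n d → Fin d → Fin n} {v : V n d}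
    {π : Equiv.Perm (Fin d × Fin n)} (h : S (lab g) (path v π) ≠ 0) (c : Fin d) :
    (∑ i, path v π (n * c) i c) < 0 ∧
      ∀ j : ℕ, 1 ≤ j → j ≤ n → 0 ≤ ∑ i, path v π (n * c + j) i c := by
  have hinj := S_ne h c
  have hbij := Finite.injective_iff_bijective.mp hinj
  obtain ⟨j0, hj0⟩ := hbij.2 0
  simp only at hj0
  rw [lab_eq_zero] at hj0
  have h0 : (∑ i, path v π (n * c) i c) < 0 :=
    lt_of_le_of_lt (path_sum_le v π _ _ (Nat.le_add_right _ _) c) hj0
  refine ⟨h0, ?_⟩
  intro j hj1 hjn
  by_contra hneg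
  push Not at hneg
  have h1 : lab g (path v π (n * c + ((0 : Fin (n + 1)) : ℕ))) c
      = lab g (path v π (n * c + ((⟨j, by omega⟩ : Fin (n + 1)) : ℕ))) c := by
    rw [(lab_eq_zero g _ c).mpr (by simpa using h0), (lab_eq_zero g _ c).mpr (by simpa using hneg)]
  have h2 := hinj h1
  have h3 := congrArg Fin.val h2
  simp at h3
  omega

/-- a large spread gives a gap -/
theorem gap_exists {n : ℕ} (w : Fin n → ℤ) (K : ℕ) (i l : Fin n)
    (h : w l + ((n : ℤ) - 1) * K + 1 ≤ w i) :
    ∃ t, (∃ i, w i < t) ∧ (∃ i, t ≤ w i) ∧ ∀ i, w i < t → w i + ((K : ℤ) + 1) ≤ t := by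
  by_contra hcon
  push Not at hcon
  have key : ∀ j : ℕ, j ≤ n - 1 →
      j + 1 ≤ (Finset.univ.filter (fun a => w a ≤ w l + j * K)).card := by
    intro j
    induction j with
    | zero =>
      intro _
      have : l ∈ Finset.univ.filter (fun a => w a ≤ w l + ((0 : ℕ) : ℤ) * K) := by simp
      have := Finset.card_pos.mpr ⟨l, this⟩
      omega
    | succ j ih =>
      intro hj
      have ih' := ih (by omega)
      have hn1 : 1 ≤ n := by have := i.isLt; omega
      obtain ⟨a, ha1, ha2⟩ := hcon (w l + (j + 1 : ℕ) * K + 1)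
        ⟨l, by push_cast; nlinarith [Int.natCast_nonneg j, Int.natCast_nonneg K]⟩
        ⟨i, by
          have hjn : ((j + 1 : ℕ) : ℤ) ≤ (n : ℤ) - 1 := by
            have : j + 1 ≤ n - 1 := hj
            omega
          have hK : (0 : ℤ) ≤ K := Int.natCast_nonneg K
          have := mul_le_mul_of_nonneg_right hjn hK
          linarith⟩
      have hsub : (Finset.univ.filter (fun a => w a ≤ w l + j * K)) ⊂
          (Finset.univ.filter (fun a => w a ≤ w l + (j + 1 : ℕ) * K)) := by
        rw [Finset.ssubset_iff_of_subset]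
        · refine ⟨a, ?_, ?_⟩
          · simp only [Finset.mem_filter, Finset.mem_univ, true_and]
            omega
          · simp only [Finset.mem_filter, Finset.mem_univ, true_and, not_le]
            push_cast at ha2 ⊢
            linarith
        · intro b hb
          simp only [Finset.mem_filter, Finset.mem_univ, true_and] at hb ⊢
          push_cast
          have hK : (0 : ℤ) ≤ K := Int.natCast_nonneg K
          linarith
      have := Finset.card_lt_card hsub
      omega
  have hn1 : 1 ≤ n := by have := i.isLt; omega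
  have hk := key (n - 1) le_rfl
  have hle : (Finset.univ.filter (fun a => w a ≤ w l + ((n - 1 : ℕ) : ℤ) * K)).card ≤ n := by
    calc _ ≤ (Finset.univ : Finset (Fin n)).card := Finset.card_filter_le _ _
      _ = n := by simp
  have hcard : (Finset.univ.filter (fun a => w a ≤ w l + ((n - 1 : ℕ) : ℤ) * K)).card
      = (Finset.univ : Finset (Fin n)).card := by simp; simp at hle hk; omega
  have huniv := Finset.eq_univ_of_card _ (by rw [hcard]; simp)
  have hi : i ∈ (Finset.univ.filter (fun a => w a ≤ w l + ((n - 1 : ℕ) : ℤ) * K)) := by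
    rw [huniv]; simp
  simp only [Finset.mem_filter, Finset.mem_univ, true_and] at hi
  have : ((n - 1 : ℕ) : ℤ) = (n : ℤ) - 1 := by omega
  rw [this] at hi
  omega

/-! ### Finiteness -/

theorem bounded_finite (n d : ℕ) (R : ℤ) : {v : V n d | Inside R v}.Finite := by
  have : {v : V n d | Inside R v} ⊆
      ↑(Fintype.piFinset (fun _ : Fin n => Fintype.piFinset (fun _ : Fin d =>
        Finset.Icc (-R) R))) := by
    intro v hv
    simp only [Finset.mem_coe, Fintype.mem_piFinset, Finset.mem_Icc]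
    intro i c
    exact abs_le.mp (hv i c)
  exact Set.Finite.subset (Finset.finite_toSet _) this

theorem inside_of_path {n d : ℕ} {R : ℤ} {v : V n d} {π : Equiv.Perm (Fin d × Fin n)} {k : ℕ}
    (h : Inside R (path v π k)) : Inside (R + 1) v := by
  intro i c
  have h1 := abs_le.mp (h i c)
  have h2 := path_le v π k i c
  rw [abs_le]
  constructor <;> omega

theorem gap_act {n d : ℕ} (G : ℤ) (v : V n d) (h : Equiv.Perm (Fin n)) (c : Fin d) (t : ℤ)
    (hg : Gap G v c t) : Gap G (act h v) c t := by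
  obtain ⟨⟨i, hi⟩, ⟨l, hl⟩, h3⟩ := hg
  refine ⟨⟨h i, by simpa [act] using hi⟩, ⟨h l, by simpa [act] using hl⟩, ?_⟩
  intro a ha
  exact h3 (h.symm a) ha

theorem inside_act {n d : ℕ} {R : ℤ} {v : V n d} (h : Equiv.Perm (Fin n)) (hv : Inside R v) :
    Inside R (act h v) := fun i c => hv (h.symm i) c

/-! ### The combinatorial theorem -/

/-- labels on two copies -/
def lam2 {n d : ℕ} (g g0 : V n d → Fin d → Fin n) (z : V n d × Bool) (c : Fin d) : Fin (n + 1) :=
  if z.2 then lab g z.1 c else lab g0 z.1 c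

theorem S_true {n d : ℕ} (g g0 : V n d → Fin d → Fin n) (x : ℕ → V n d) :
    S (lam2 g g0) (fun i => (x i, true)) = S (lab g) x := by
  unfold S lam2
  simp

theorem block_le {n d : ℕ} (c : Fin d) (j : Fin (n + 1)) : n * (c : ℕ) + (j : ℕ) ≤ d * n := by
  have h1 : (c : ℕ) + 1 ≤ d := c.isLt
  have h2 : (j : ℕ) ≤ n := by have := j.isLt; omega
  calc n * (c : ℕ) + (j : ℕ) ≤ n * (c : ℕ) + n := by omega
    _ = ((c : ℕ) + 1) * n := by ring
    _ ≤ d * n := Nat.mul_le_mul_right _ h1

theorem S_false {n d : ℕ} (g g0 : V n d → Fin d → Fin n) (x : ℕ → V n d) :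
    S (lam2 g g0) (fun i => (x i, decide (d * n < i))) = S (lab g0) x := by
  unfold S
  apply Finset.prod_congr rfl
  intro c _
  congr 1
  funext j
  have h : ¬ (d * n < n * (c : ℕ) + (j : ℕ)) := not_lt.mpr (block_le c j)
  simp [lam2, h]

/-- the homotopy cochain -/
def eta {n d : ℕ} (g g0 : V n d → Fin d → Fin n) (x : ℕ → V n d) : ℤ :=
  ∑ k ∈ range (d * n), (-1 : ℤ) ^ k * S (lam2 g g0) (prism k x)

theorem eta_dep {n d : ℕ} (g g0 : V n d → Fin d → Fin n) (y y' : ℕ → V n d)
    (h : ∀ k < d * n, y k = y' k) : eta g g0 y = eta g g0 y' := by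
  unfold eta
  apply Finset.sum_congr rfl
  intro k hk
  rw [Finset.mem_range] at hk
  congr 1
  unfold S
  apply Finset.prod_congr rfl
  intro c _
  congr 1
  funext j
  have hle := block_le (n := n) c j
  unfold prism
  split_ifs with h1
  · rw [h _ (by omega)]
  · rw [h _ (by omega)]

theorem S_prism_zero {n d : ℕ} (hn : 0 < n) (g g0 : V n d → Fin d → Fin n) (x : ℕ → V n d) (k : ℕ)
    (hk : k < d * n) (hx : g (x k) = g0 (x k)) : S (lam2 g g0) (prism k x) = 0 := by
  by_contra hne
  have hc : k / n < d := by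
    rw [Nat.div_lt_iff_lt_mul hn]
    exact hk
  have hinj := S_ne hne ⟨k / n, hc⟩
  have hr : k % n < n := Nat.mod_lt _ hn
  have hdiv : n * (k / n) + k % n = k := Nat.div_add_mod k n
  have h1 : (fun j : Fin (n + 1) => lam2 g g0 (prism k x (n * ((⟨k / n, hc⟩ : Fin d) : ℕ) + (j : ℕ)))
      ⟨k / n, hc⟩) ⟨k % n, by omega⟩ = (fun j : Fin (n + 1) =>
      lam2 g g0 (prism k x (n * ((⟨k / n, hc⟩ : Fin d) : ℕ) + (j : ℕ))) ⟨k / n, hc⟩)
        ⟨k % n + 1, by omega⟩ := by
    simp only
    have e1 : n * (k / n) + k % n = k := hdiv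
    have e2 : n * (k / n) + (k % n + 1) = k + 1 := by omega
    rw [e1, e2]
    unfold prism
    simp only [le_refl, if_true, Nat.add_sub_cancel, add_le_iff_nonpos_right]
    simp only [Nat.le_zero, one_ne_zero, if_false]
    unfold lam2
    simp [lab, hx]
  have h2 := hinj h1
  have h3 := congrArg Fin.val h2
  simp at h3

theorem eta_sup {n d : ℕ} (hn : 0 < n) (R : ℤ) (g g0 : V n d → Fin d → Fin n)
    (hout : ∀ v, ¬ Inside R v → g v = g0 v) (y : ℕ → V n d) (h : eta g g0 y ≠ 0) :
    ∃ k < d * n, Inside R (y k) := by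
  by_contra hcon
  push Not at hcon
  apply h
  unfold eta
  apply Finset.sum_eq_zero
  intro k hk
  rw [Finset.mem_range] at hk
  rw [S_prism_zero hn g g0 y k hk (hout _ (hcon k hk)), mul_zero]

theorem S_diff {n d : ℕ} (g g0 : V n d → Fin d → Fin n) (x : ℕ → V n d) :
    S (lab g) x - S (lab g0) x =
      ∑ j ∈ range (d * n + 1), (-1 : ℤ) ^ j * eta g g0 (fun i => x (del j i)) := by
  rw [← S_true g g0 x, ← S_false g g0 x]
  exact Pool.Agent.H97.EF.EF3 (d * n) (S (lam2 g g0)) (fun y => Pool.Agent.H91.EF.EF1 (lam2 g g0) y) x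

theorem S_congr {n d : ℕ} {g g0 : V n d → Fin d → Fin n} {x : ℕ → V n d}
    (h : ∀ k ≤ d * n, g (x k) = g0 (x k)) : S (lab g) x = S (lab g0) x := by
  unfold S
  apply Finset.prod_congr rfl
  intro c _
  congr 1
  funext j
  unfold lab
  rw [h _ (block_le c j)]

theorem comb (p k n d : ℕ) (hp : p.Prime) (hn : n = p ^ k) (hn2 : 2 ≤ n) (hd : 0 < d) (K : ℕ)
    (g g0 : V n d → Fin d → Fin n) (hg : Compat (K : ℤ) g)
    (hout : ∀ v, ¬ Inside ((n : ℤ) * (K + 1)) v → g v = g0 v)
    (hstd : ∀ (v : V n d) (c : Fin d) (i : Fin n), v i c ≤ v (g0 v c) c)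
    (hnear : ∀ v : V n d, Inside 1 v → ∀ (c : Fin d) (i : Fin n), v i c = v (g0 v c) c →
      i ≤ g0 v c) :
    ∃ y : ℕ → V n d, (∀ k ≤ d * n, Inside ((n : ℤ) * (K + 1)) (y k)) ∧
      (∀ k < d * n, ∑ i, ∑ c, y (k + 1) i c = ∑ i, ∑ c, y k i c + 1) ∧
      (∀ k i c, y 0 i c ≤ y k i c ∧ y k i c ≤ y 0 i c + 1) ∧
      ∀ c : Fin d, Function.Injective (fun j : Fin n => g (y (n * c + (j + 1))) c) := by
  classical
  set R : ℤ := (n : ℤ) * (K + 1) with hR
  have hRn : (n : ℤ) ≤ R := by
    have : (0 : ℤ) ≤ K := Int.natCast_nonneg K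
    nlinarith [Int.natCast_nonneg n]
  have hR1 : 1 ≤ R := by omega
  have hmpos : 0 < d * n := Nat.mul_pos hd (by omega)
  by_contra hcon
  -- no simplex inside
  have hins : ∀ (v : V n d) (π : Equiv.Perm (Fin d × Fin n)),
      (∀ k ≤ d * n, Inside R (path v π k)) → S (lab g) (path v π) = 0 := by
    intro v π hin
    by_contra hS
    apply hcon
    refine ⟨path v π, hin, ?_, ?_, ?_⟩
    · intro k hk
      rw [path_sum_all v π (k + 1) (by omega), path_sum_all v π k (by omega)]
      push_cast
      ring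
    · intro k i c
      rw [path_zero]
      exact path_le v π k i c
    · intro c j j' hjj
      simp only at hjj
      have hfirst := S_path_first hS c
      have hinj := S_ne hS c
      have hl : ∀ j : Fin n, lab g (path v π (n * c + (j + 1))) c
          = (g (path v π (n * c + (j + 1))) c).succ := by
        intro j
        unfold lab
        rw [if_neg]
        exact not_lt.mpr (hfirst.2 (j + 1) (by omega) (by have := j.isLt; omega))
      have h2 : (fun j : Fin (n + 1) => lab g (path v π (n * (c : ℕ) + (j : ℕ))) c) j.succ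
          = (fun j : Fin (n + 1) => lab g (path v π (n * (c : ℕ) + (j : ℕ))) c) j'.succ := by
        simp only [Fin.val_succ]
        rw [hl j, hl j', hjj]
      exact Fin.succ_injective _ (hinj h2)
  -- the standard simplex is inside
  have hvs : Inside R (vstar n d) := by
    intro i c
    unfold vstar
    split_ifs
    · simpa using hR1
    · simpa using (by omega : (0 : ℤ) ≤ R)
  have hsome : ∀ (v : V n d) (π : Equiv.Perm (Fin d × Fin n)), S (lab g) (path v π) ≠ 0 →
      ∃ k ≤ d * n, Inside R (path v π k) := by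
    intro v π hS
    by_contra hno
    push Not at hno
    have h1 : S (lab g) (path v π) = S (lab g0) (path v π) :=
      S_congr (fun k hk => hout _ (hno k hk))
    rw [h1] at hS
    obtain ⟨h2, h3⟩ := Pool.Agent.H23.EF.EF4a n d hn2 g0 hstd hnear v π hS
    apply hno 0 (Nat.zero_le _)
    rw [path_zero, h2]
    exact hvs
  -- the invariant finite set
  have hfin : {x : V n d × Equiv.Perm (Fin d × Fin n) | Inside (R + 1) x.1 ∧
      ∃ c t, Gap ((K : ℤ) + 1) x.1 c t}.Finite := by
    apply Set.Finite.subset ((bounded_finite n d (R + 1)).prod Set.finite_univ)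
    intro x hx
    exact ⟨hx.1, Set.mem_univ _⟩
  set X := hfin.toFinset with hX
  have hsupp : ∀ (v : V n d) (π : Equiv.Perm (Fin d × Fin n)), S (lab g) (path v π) ≠ 0 →
      (v, π) ∈ X := by
    intro v π hS
    rw [hX, Set.Finite.mem_toFinset]
    obtain ⟨k0, hk0, hin0⟩ := hsome v π hS
    refine ⟨inside_of_path hin0, ?_⟩
    have hout' : ∃ k ≤ d * n, ¬ Inside R (path v π k) := by
      by_contra hall
      push Not at hall
      exact hS (hins v π hall)
    obtain ⟨k1, hk1, hnin⟩ := hout'
    unfold Inside at hnin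
    push Not at hnin
    obtain ⟨i, c, hic⟩ := hnin
    have hpl := path_le v π k1 i c
    have hfirst := S_path_first hS c
    have hsneg : (∑ a, v a c) < 0 := by
      refine lt_of_le_of_lt ?_ hfirst.1
      have := path_sum_le v π 0 (n * c) (Nat.zero_le _) c
      rwa [path_zero] at this
    have hspos : -(n : ℤ) ≤ ∑ a, v a c := by
      have h1 := hfirst.2 1 le_rfl (by omega)
      have h2 := path_sum_ub v π (n * c + 1) c
      linarith
    refine ⟨c, ?_⟩
    have hK0 : (0 : ℤ) ≤ K := Int.natCast_nonneg K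
    have hn2' : (2 : ℤ) ≤ n := by exact_mod_cast hn2
    have hRK : ((n : ℤ) - 1) * K + 1 ≤ R := by rw [hR]; nlinarith
    rcases le_or_gt 0 (path v π k1 i c) with hsign | hsign
    · -- large positive entry
      rw [abs_of_nonneg hsign] at hic
      have hi : R ≤ v i c := by omega
      have hl : ∃ l, v l c < 0 := by
        by_contra hno
        push Not at hno
        have : (0 : ℤ) ≤ ∑ a, v a c := Finset.sum_nonneg (fun a _ => hno a)
        omega
      obtain ⟨l, hl⟩ := hl
      exact gap_exists (fun a => v a c) K i l (by show v l c + ((n : ℤ) - 1) * K + 1 ≤ v i c; linarith)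
    · rw [abs_of_neg hsign] at hic
      have hi : v i c ≤ -R - 1 := by omega
      have hl : ∃ l, 0 ≤ v l c := by
        by_contra hno
        push Not at hno
        have h1 : ∑ a, v a c ≤ ∑ a : Fin n, (if a = i then -R - 1 else 0) := by
          apply Finset.sum_le_sum
          intro a _
          split_ifs with ha
          · rw [ha]; exact hi
          · exact le_of_lt (hno a)
        rw [Finset.sum_ite_eq' Finset.univ i] at h1
        simp only [Finset.mem_univ, if_true] at h1
        omega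
      obtain ⟨l, hl⟩ := hl
      exact gap_exists (fun a => v a c) K l i (by show v i c + ((n : ℤ) - 1) * K + 1 ≤ v l c; linarith)
  have hdvd : (p : ℤ) ∣ ∑ x ∈ X, sgn x.2 * S (lab g) (path x.1 x.2) := by
    apply Pool.Agent.H63.EF.EF5 p k n d hp hn (K : ℤ) g hg X
    · intro h v π hv
      rw [hX, Set.Finite.mem_toFinset] at hv ⊢
      obtain ⟨h1, c, t, h2⟩ := hv
      exact ⟨inside_act h h1, c, t, gap_act _ _ _ _ _ h2⟩
    · intro v π hv
      rw [hX, Set.Finite.mem_toFinset] at hv
      exact hv.2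
  -- Stokes
  have hst := Pool.Agent.H65.EF.EF2 n d hmpos R (eta g g0) (eta_dep g g0) (eta_sup (by omega) R g g0 hout)
  have hst2 : ∑ᶠ x : V n d × Equiv.Perm (Fin d × Fin n),
      (sgn x.2 * S (lab g) (path x.1 x.2) - sgn x.2 * S (lab g0) (path x.1 x.2)) = 0 := by
    rw [← hst]
    apply finsum_congr
    intro x
    rw [← S_diff g g0 (path x.1 x.2)]
    ring
  set Y : Finset (V n d × Equiv.Perm (Fin d × Fin n)) := X ∪ {(vstar n d, pistar n d)} with hY
  rw [finsum_eq_sum_of_support_subset (s := Y)] at hst2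
  · rw [Finset.sum_sub_distrib] at hst2
    have h1 : ∑ x ∈ Y, sgn x.2 * S (lab g) (path x.1 x.2)
        = ∑ x ∈ X, sgn x.2 * S (lab g) (path x.1 x.2) := by
      symm
      apply Finset.sum_subset (Finset.subset_union_left)
      intro x _ hx
      by_contra hne
      apply hx
      exact hsupp x.1 x.2 (fun h0 => hne (by rw [h0, mul_zero]))
    have h2 : ∑ x ∈ Y, sgn x.2 * S (lab g0) (path x.1 x.2)
        = sgn (pistar n d) * S (lab g0) (path (vstar n d) (pistar n d)) := by
      rw [Finset.sum_eq_single_of_mem (vstar n d, pistar n d)]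
      · rw [hY]; simp
      · intro x _ hx
        by_contra hne
        apply hx
        obtain ⟨h3, h4⟩ := Pool.Agent.H23.EF.EF4a n d hn2 g0 hstd hnear x.1 x.2 (fun h0 => hne (by rw [h0, mul_zero]))
        exact Prod.ext h3 h4
    rw [h1, h2] at hst2
    have h5 : (p : ℤ) ∣ sgn (pistar n d) * S (lab g0) (path (vstar n d) (pistar n d)) := by
      have : sgn (pistar n d) * S (lab g0) (path (vstar n d) (pistar n d))
        = ∑ x ∈ X, sgn x.2 * S (lab g) (path x.1 x.2) := by linarith
      rw [this]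
      exact hdvd
    have h6 : IsUnit (sgn (pistar n d) * S (lab g0) (path (vstar n d) (pistar n d))) := by
      apply IsUnit.mul
      · unfold sgn
        exact Units.isUnit _
      · rcases Pool.Agent.H23.EF.EF4b n d hn2 g0 hstd hnear with h | h <;> rw [h]
        · exact isUnit_one
        · exact isUnit_one.neg
    have h7 : IsUnit (p : ℤ) := isUnit_of_dvd_unit h5 h6
    rw [Int.ofNat_isUnit, Nat.isUnit_iff] at h7
    exact hp.one_lt.ne' h7
  · intro x hx
    rw [Function.mem_support] at hx
    rw [Finset.mem_coe, hY, Finset.mem_union]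
    by_cases h0 : S (lab g) (path x.1 x.2) = 0
    · right
      rw [h0, mul_zero, zero_sub, neg_ne_zero] at hx
      obtain ⟨h3, h4⟩ := Pool.Agent.H23.EF.EF4a n d hn2 g0 hstd hnear x.1 x.2 (fun h0 => hx (by rw [h0, mul_zero]))
      rw [Finset.mem_singleton]
      exact Prod.ext h3 h4
    · left
      exact hsupp x.1 x.2 h0

end Pool.Agent.H62.EF
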