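import Mathlib

/-!
Definitions for the envy-free convex partition project (MP_fa8b7d_co, prime powers).
-/

namespace Pool.Agent.H62.EF

open Finset

/-- Grid vertices: `n` integer vectors with `d` coordinates. -/
abbrev V (n d : ℕ) : Type := Fin n → Fin d → ℤ

/-- Permutations of the `n` indices act on vertices. -/
def act {n d : ℕ} (h : Equiv.Perm (Fin n)) (v : V n d) : V n d := fun i => v (h.symm i)

/-- `pos π (c, i)` is the time at which coordinate `c` of vector `i` is increased. -/
def pos {n d : ℕ} (π : Equiv.Perm (Fin d × Fin n)) (x : Fin d × Fin n) : ℕ :=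
  (finProdFinEquiv (π.symm x) : Fin (d * n)).val

/-- The Kuhn simplex with first vertex `v` and order `π`, as a sequence of vertices. -/
def path {n d : ℕ} (v : V n d) (π : Equiv.Perm (Fin d × Fin n)) (k : ℕ) : V n d :=
  fun i c => v i c + if pos π (c, i) < k then 1 else 0

/-- The order `π` with the indices relabelled by `h`. -/
def actP {n d : ℕ} (h : Equiv.Perm (Fin n)) (π : Equiv.Perm (Fin d × Fin n)) :
    Equiv.Perm (Fin d × Fin n) :=
  π.trans (Equiv.prodCongr (Equiv.refl _) h)

/-- The sign of an order. -/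
def sgn {n d : ℕ} (π : Equiv.Perm (Fin d × Fin n)) : ℤ := ((Equiv.Perm.sign π : ℤˣ) : ℤ)

/-- Sign of a sequence of `n + 1` labels in `Fin (n + 1)` (0 if two labels are equal). -/
def sg {n : ℕ} (a : Fin (n + 1) → Fin (n + 1)) : ℤ :=
  Matrix.det (Matrix.of fun i j => if a i = j then (1 : ℤ) else 0)

/-- The product of the `d` Sperner cochains, on consecutive blocks of vertices. -/
def S {n d : ℕ} {X : Type*} (lam : X → Fin d → Fin (n + 1)) (y : ℕ → X) : ℤ :=
  ∏ c : Fin d, sg (fun j : Fin (n + 1) => lam (y (n * (c : ℕ) + (j : ℕ))) c)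

/-- The increasing map that omits `j`. -/
def del (j i : ℕ) : ℕ := if i < j then i else i + 1

/-- Extension of a permutation of `Fin n` to `Fin (n + 1)`, fixing `0`. -/
def ext0 {n : ℕ} (h : Equiv.Perm (Fin n)) : Equiv.Perm (Fin (n + 1)) :=
  Equiv.Perm.decomposeFin.symm (0, h)

/-- Labels obtained from a choice of indices: label `0` if the coordinate sum is negative. -/
def lab {n d : ℕ} (g : V n d → Fin d → Fin n) (v : V n d) (c : Fin d) : Fin (n + 1) :=
  if (∑ i, v i c) < 0 then 0 else (g v c).succ

/-- All entries bounded by `R` in absolute value. -/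
def Inside {n d : ℕ} (R : ℤ) (v : V n d) : Prop := ∀ i c, |v i c| ≤ R

/-- Coordinate `c` of the vectors with index in `A` is smaller by at least `G` than the one of
the other vectors. -/
def Sep {n d : ℕ} (G : ℤ) (v : V n d) (c : Fin d) (A : Finset (Fin n)) : Prop :=
  ∀ i ∈ A, ∀ l ∉ A, v i c + G ≤ v l c

/-- `t` is a threshold: there are values of coordinate `c` below and above `t`, and those below
are smaller by at least `G`. -/
def Gap {n d : ℕ} (G : ℤ) (v : V n d) (c : Fin d) (t : ℤ) : Prop :=
  (∃ i, v i c < t) ∧ (∃ i, t ≤ v i c) ∧ ∀ i, v i c < t → v i c + G ≤ t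

/-- `h` is strictly increasing on `A` and on the complement of `A`. -/
def Shuf {n : ℕ} (h : Equiv.Perm (Fin n)) (A : Finset (Fin n)) : Prop :=
  (∀ i ∈ A, ∀ j ∈ A, i < j → h i < h j) ∧ (∀ i ∉ A, ∀ j ∉ A, i < j → h i < h j)

/-- The choice of indices is compatible with shuffles at separated vertices. -/
def Compat {n d : ℕ} (G : ℤ) (g : V n d → Fin d → Fin n) : Prop :=
  ∀ (v : V n d) (c : Fin d) (A : Finset (Fin n)) (h : Equiv.Perm (Fin n)),
    Sep G v c A → Shuf h A → ∀ c', g (act h v) c' = h (g v c')

/-- First vertex of the standard simplex. -/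
def vstar (n d : ℕ) : V n d := fun i _ => if (i : ℕ) + 1 = n then -1 else 0

/-- Order of the standard simplex: in each block first the last index, then `0, 1, ...`. -/
def pistar (n d : ℕ) : Equiv.Perm (Fin d × Fin n) :=
  (Equiv.prodCongr (Equiv.refl (Fin d)) (finRotate n)).symm

/-- Prism sequences. -/
def prism {X : Type*} (k : ℕ) (x : ℕ → X) (i : ℕ) : X × Bool :=
  if i ≤ k then (x i, false) else (x (i - 1), true)

/-- Parameters of an affine function on `ℝ ^ d`: slope and constant term. -/
abbrev P (d : ℕ) : Type := (Fin d → ℝ) × ℝ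

/-- Distance-dependent weight. -/
noncomputable def kap {d : ℕ} (a b : Fin d → ℝ) : ℝ := max 0 (1 - dist a b)

/-- Heights. -/
noncomputable def hgt {n d : ℕ} (u : Fin n → Fin d → ℝ) (i : Fin n) : ℝ :=
  ∑ l : Fin n, if l < i then kap (u i) (u l) else 0

/-- The configuration of affine functions attached to `u`. -/
noncomputable def cfg {n d : ℕ} (u : Fin n → Fin d → ℝ) : Fin n → P d := fun i => (u i, hgt u i)

/-- The `j`-th piece: where the `j`-th affine function is maximal. -/
def piece {n d : ℕ} (x : Fin n → P d) (j : Fin n) : Set (EuclideanSpace ℝ (Fin d)) :=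
  {y | ∀ l, (∑ c, (x l).1 c * y c) + (x l).2 ≤ (∑ c, (x j).1 c * y c) + (x j).2}

end Pool.Agent.H62.EF
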