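import Pool.Agent.H62.EF.Lab

namespace Pool.Agent.H62.EF

open Finset

theorem owner_inj {n d : ℕ} [NeZero n] (y : ℕ → V n d) (s : ℤ)
    (hy : ∀ j : ℕ, j < n → ∑ i, ∑ c, y j i c = s + j) :
    Function.Injective (fun j : Fin n => owner (y j)) := by
  intro j j' h
  have hn : (0 : ℤ) < n := by exact_mod_cast Nat.pos_of_ne_zero (NeZero.ne n)
  unfold owner at h
  simp only [Fin.mk.injEq] at h
  rw [hy j j.isLt, hy j' j'.isLt] at h
  have h1 := Int.emod_nonneg (s + (j : ℕ)) hn.ne'
  have h2 := Int.emod_nonneg (s + (j' : ℕ)) hn.ne'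
  have h3 : (s + (j : ℕ)) % (n : ℤ) = (s + (j' : ℕ)) % n := by omega
  have h4 : (n : ℤ) ∣ (s + (j' : ℕ)) - (s + (j : ℕ)) := Int.ModEq.dvd h3
  have h5 : (n : ℤ) ∣ ((j' : ℕ) : ℤ) - (j : ℕ) := by
    have : (s + ((j' : ℕ) : ℤ)) - (s + (j : ℕ)) = ((j' : ℕ) : ℤ) - (j : ℕ) := by ring
    rwa [this] at h4
  have h6 : ((j' : ℕ) : ℤ) - (j : ℕ) = 0 := by
    apply Int.eq_zero_of_abs_lt_dvd h5
    have := j.isLt
    have := j'.isLt
    rw [abs_lt]
    constructor <;> omega
  apply Fin.ext
  omega

/-- one step of the approximation -/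
theorem step (p k n d : ℕ) [NeZero n] (hp : p.Prime) (hn : n = p ^ k) (hn2 : 2 ≤ n) (hd : 0 < d)
    (K : ℕ) (hK : 2 * n < K) (w : Fin d → Fin n → Set (EuclideanSpace ℝ (Fin d)) → ℝ) :
    ∃ (u : Fin n → Fin d → ℝ) (Q : Fin d → Fin n → Fin n),
      (∀ i c, |u i c| ≤ 2 * n) ∧ (∀ c, Function.Injective (Q c)) ∧
      ∀ c q, ∃ z : Fin n → Fin d → ℝ, dist z u ≤ 1 / K ∧
        ∀ j, w c q (piece (cfg z) j) ≤ w c q (piece (cfg z) (Q c q)) := by
  classical
  have hK0 : 0 < K := by omega
  have hKr : (0 : ℝ) < K := by exact_mod_cast hK0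
  set R : ℤ := (n : ℤ) * (K + 1) with hR
  obtain ⟨y, hy1, hy2, hy3, hy4⟩ := comb p k n d hp hn hn2 hd K (gm K R w) (g0 K)
    (gm_compat K hK0 R w) (by
      intro v hv
      funext c
      unfold gm
      rw [if_neg hv]) (g0_std K hK0) (g0_near K hK)
  -- sums
  have hsum : ∀ k ≤ d * n, ∑ i, ∑ c, y k i c = ∑ i, ∑ c, y 0 i c + k := by
    intro k
    induction k with
    | zero => simp
    | succ k ih =>
      intro hk
      rw [hy2 k (by omega), ih (by omega)]
      push_cast
      ring
  have hblk : ∀ (c : Fin d) (j : ℕ), j < n → n * (c : ℕ) + (j + 1) ≤ d * n := by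
    intro c j hj
    exact block_le c ⟨j + 1, by omega⟩
  have hown : ∀ c : Fin d, Function.Bijective
      (fun j : Fin n => owner (y (n * c + (j + 1)))) := by
    intro c
    apply Finite.injective_iff_bijective.mp
    apply owner_inj (fun j => y (n * c + (j + 1))) (∑ i, ∑ c, y 0 i c + (n * c + 1 : ℕ))
    intro j hj
    rw [hsum _ (hblk c j hj)]
    push_cast
    ring
  -- index of player q
  let J : Fin d → Fin n → Fin n := fun c => (Equiv.ofBijective _ (hown c)).symm
  have hJ : ∀ c q, owner (y (n * c + (J c q + 1))) = q := by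
    intro c q
    exact (Equiv.ofBijective _ (hown c)).apply_symm_apply q
  refine ⟨scl K (y 0), fun c q => gm K R w (y (n * c + (J c q + 1))) c, ?_, ?_, ?_⟩
  · intro i c
    have h1 := hy1 0 (Nat.zero_le _) i c
    unfold scl
    rw [abs_div, abs_of_pos hKr, div_le_iff₀ hKr]
    have h2 : (|(y 0 i c : ℝ)|) ≤ (n : ℝ) * (K + 1) := by
      have : ((|y 0 i c| : ℤ) : ℝ) ≤ ((n : ℤ) * (K + 1) : ℤ) := by exact_mod_cast h1
      push_cast at this
      exact this
    have h3 : (1 : ℝ) ≤ K := by exact_mod_cast hK0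
    have h4 : (0 : ℝ) ≤ n := Nat.cast_nonneg n
    nlinarith
  · intro c q q' h
    have h1 := hy4 c h
    exact (Equiv.ofBijective _ (hown c)).symm.injective h1
  · intro c q
    refine ⟨scl K (y (n * c + (J c q + 1))), ?_, ?_⟩
    · rw [dist_pi_le_iff (by positivity)]
      intro i
      rw [dist_pi_le_iff (by positivity)]
      intro c'
      unfold scl
      rw [Real.dist_eq, ← sub_div, abs_div, abs_of_pos hKr]
      apply div_le_div_of_nonneg_right _ hKr.le
      have h1 := hy3 (n * c + (J c q + 1)) i c'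
      have h2 : |y (n * c + (J c q + 1)) i c' - y 0 i c'| ≤ 1 := by
        rw [abs_le]; constructor <;> omega
      exact_mod_cast h2
    · intro j
      have hin : Inside R (y (n * c + (J c q + 1))) := hy1 _ (hblk c _ (J c q).isLt)
      have h1 : gm K R w (y (n * c + (J c q + 1))) c = gf K w (y (n * c + (J c q + 1))) c := by
        unfold gm
        rw [if_pos hin]
      beta_reduce
      rw [h1]
      have h2 := amax_spec (fun i => toLex (w c (owner (y (n * c + (J c q + 1))))
        (piece (cfg (scl K (y (n * c + (J c q + 1))))) i),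
        ordP (cfg (scl K (y (n * c + (J c q + 1)))) i))) j
      have h3 := Prod.Lex.monotone_fst _ _ h2
      simp only [ofLex_toLex] at h3
      rw [hJ c q] at h3
      unfold gf
      rw [hJ c q]
      exact h3

/-- envy-free partitions for continuous valuations of the pieces -/
theorem envy_free (n d : ℕ) (hn : IsPrimePow n) (hd : 0 < d)
    (w : Fin d → Fin n → Set (EuclideanSpace ℝ (Fin d)) → ℝ)
    (hw : ∀ r i j, ∀ x : Fin n → P d, Function.Injective x →
      ContinuousAt (fun z : Fin n → P d => w r i (piece z j)) x) :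
    ∃ x : Fin n → P d, Function.Injective x ∧
      ∀ r, ∃ π : Equiv.Perm (Fin n), ∀ i j, w r i (piece x j) ≤ w r i (piece x (π i)) := by
  classical
  obtain ⟨p, k, hp, hk, hpk⟩ := (isPrimePow_nat_iff n).mp hn
  have hn2 : 2 ≤ n := hn.two_le
  have : NeZero n := ⟨by omega⟩
  have hstep := fun m : ℕ => step p k n d hp hpk.symm hn2 hd (2 * n + 1 + m) (by omega) w
  choose u Q hu hQ hz using hstep
  -- compactness
  have hcomp : IsCompact ({u : Fin n → Fin d → ℝ | ∀ i c, |u i c| ≤ 2 * n} ×ˢ
      (Set.univ : Set (Fin d → Fin n → Fin n))) := by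
    apply IsCompact.prod _ isCompact_univ
    have : {u : Fin n → Fin d → ℝ | ∀ i c, |u i c| ≤ 2 * n} =
        Set.pi Set.univ (fun _ : Fin n => Set.pi Set.univ (fun _ : Fin d =>
          Set.Icc (-(2 * n : ℝ)) (2 * n))) := by
      ext u
      simp only [Set.mem_ofPred_eq, Set.mem_pi, Set.mem_univ, forall_true_left, Set.mem_Icc,
        abs_le]
    rw [this]
    exact isCompact_univ_pi (fun _ => isCompact_univ_pi (fun _ => isCompact_Icc))
  obtain ⟨⟨u0, Q0⟩, _, φ, hφ, hlim⟩ := hcomp.tendsto_subseq (x := fun m => (u m, Q m))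
    (fun m => ⟨hu m, Set.mem_univ _⟩)
  have hlu : Filter.Tendsto (fun m => u (φ m)) Filter.atTop (nhds u0) :=
    (continuous_fst.tendsto _).comp hlim
  have hlQ : Filter.Tendsto (fun m => Q (φ m)) Filter.atTop (nhds Q0) :=
    (continuous_snd.tendsto _).comp hlim
  have hQev : ∀ᶠ m in Filter.atTop, Q (φ m) = Q0 := by
    have : nhds Q0 = pure Q0 := by rw [nhds_discrete (Fin d → Fin n → Fin n)]
    rw [this] at hlQ
    exact hlQ (Set.mem_singleton Q0)
  have hxinj : Function.Injective (cfg u0) := Pool.Agent.H58.EF.EF7a u0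
  refine ⟨cfg u0, hxinj, ?_⟩
  intro r
  have hinj : Function.Injective (Q0 r) := by
    obtain ⟨m, hm⟩ := hQev.exists
    rw [← hm]
    exact hQ _ r
  refine ⟨Equiv.ofBijective _ (Finite.injective_iff_bijective.mp hinj), ?_⟩
  intro i j
  rw [Equiv.ofBijective_apply]
  choose z hz1 hz2 using hz
  -- points tend to u0
  have hzl : Filter.Tendsto (fun m => z (φ m) r i) Filter.atTop (nhds u0) := by
    rw [tendsto_iff_dist_tendsto_zero]
    have h1 : Filter.Tendsto (fun m => 1 / ((2 * n + 1 + φ m : ℕ) : ℝ) + dist (u (φ m)) u0)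
        Filter.atTop (nhds 0) := by
      rw [show (0 : ℝ) = 0 + 0 by ring]
      apply Filter.Tendsto.add
      · have h2 : Filter.Tendsto (fun m : ℕ => 2 * n + 1 + φ m) Filter.atTop Filter.atTop :=
          Filter.tendsto_atTop_mono (fun m => by omega) hφ.tendsto_atTop
        exact tendsto_one_div_atTop_nhds_zero_nat.comp h2
      · exact tendsto_iff_dist_tendsto_zero.mp hlu
    apply squeeze_zero (fun _ => dist_nonneg) _ h1
    intro m
    refine le_trans (dist_triangle _ (u (φ m)) _) ?_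
    gcongr
    exact hz1 (φ m) r i
  have hcont : ∀ j, Filter.Tendsto (fun m => w r i (piece (cfg (z (φ m) r i)) j)) Filter.atTop
      (nhds (w r i (piece (cfg u0) j))) := by
    intro j
    have h1 : ContinuousAt (fun u : Fin n → Fin d → ℝ => w r i (piece (cfg u) j)) u0 :=
      ContinuousAt.comp (f := cfg) (g := fun z => w r i (piece z j)) (hw r i j _ hxinj)
        (Pool.Agent.H58.EF.EF7b (n := n) (d := d)).continuousAt
    exact h1.tendsto.comp hzl
  apply le_of_tendsto_of_tendsto (hcont j) (hcont (Q0 r i))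
  filter_upwards [hQev] with m hm
  have := hz2 (φ m) r i j
  rw [hm] at this
  exact this

end Pool.Agent.H62.EF
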