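import Pool.Agent.H62.EF.Comb
import Pool.Agent.H58.EF.EF7

namespace Pool.Agent.H62.EF

open Finset

/-! ### argmax -/

section amax
variable {n : ℕ} [Nonempty (Fin n)] {κ : Type*} [LinearOrder κ]

/-- an index where the key is maximal -/
noncomputable def amax (key : Fin n → κ) : Fin n := Classical.choose (Finite.exists_max key)

theorem amax_spec (key : Fin n → κ) (i : Fin n) : key i ≤ key (amax key) :=
  Classical.choose_spec (Finite.exists_max key) i

theorem amax_unique (key : Fin n → κ) (hk : Function.Injective key) (i : Fin n)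
    (h : ∀ l, key l ≤ key i) : amax key = i :=
  hk (le_antisymm (h _) (amax_spec key i))

theorem amax_perm (key : Fin n → κ) (hk : Function.Injective key) (h : Equiv.Perm (Fin n)) :
    amax (fun i => key (h.symm i)) = h (amax key) := by
  apply amax_unique
  · intro i j hij
    exact h.symm.injective (hk hij)
  · intro l
    simp only [Equiv.symm_apply_apply]
    exact amax_spec key _

end amax

/-- ordinal number of a configuration point -/
noncomputable def ordP {d : ℕ} (x : P d) : Ordinal := Ordinal.typein (α := P d) WellOrderingRel x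

theorem ordP_inj {d : ℕ} : Function.Injective (ordP : P d → Ordinal) :=
  Ordinal.typein_injective _

/-- scaled grid point -/
noncomputable def scl {n d : ℕ} (K : ℕ) (v : V n d) : Fin n → Fin d → ℝ :=
  fun i c => (v i c : ℝ) / K

/-- the player attached to a vertex -/
noncomputable def owner {n d : ℕ} [NeZero n] (v : V n d) : Fin n :=
  ⟨((∑ i, ∑ c, v i c) % (n : ℤ)).toNat, by
    have hn : (0 : ℤ) < n := by exact_mod_cast Nat.pos_of_ne_zero (NeZero.ne n)
    have h1 := Int.emod_lt_of_pos (∑ i, ∑ c, v i c) hn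
    have h2 := Int.emod_nonneg (∑ i, ∑ c, v i c) hn.ne'
    omega⟩

theorem owner_act {n d : ℕ} [NeZero n] (h : Equiv.Perm (Fin n)) (v : V n d) :
    owner (act h v) = owner v := by
  unfold owner act
  have : ∑ i, ∑ c, v (h.symm i) c = ∑ i, ∑ c, v i c :=
    Equiv.sum_comp h.symm (fun i => ∑ c, v i c)
  simp only [this]

/-- standard index -/
noncomputable def g0 {n d : ℕ} [NeZero n] (K : ℕ) (v : V n d) (c : Fin d) : Fin n :=
  amax (fun i => toLex ((cfg (scl K v) i).1 c,
    toLex ((cfg (scl K v) i).2, ordP (cfg (scl K v) i))))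

/-- index of the favourite piece -/
noncomputable def gf {n d : ℕ} [NeZero n] (K : ℕ) (w : Fin d → Fin n → Set (EuclideanSpace ℝ (Fin d)) → ℝ)
    (v : V n d) (c : Fin d) : Fin n :=
  amax (fun i => toLex (w c (owner v) (piece (cfg (scl K v)) i), ordP (cfg (scl K v) i)))

open Classical in
/-- mixed choice -/
noncomputable def gm {n d : ℕ} [NeZero n] (K : ℕ) (R : ℤ)
    (w : Fin d → Fin n → Set (EuclideanSpace ℝ (Fin d)) → ℝ)
    (v : V n d) (c : Fin d) : Fin n :=
  if Inside R v then gf K w v c else g0 K v c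

theorem piece_perm {n d : ℕ} (x : Fin n → P d) (h : Equiv.Perm (Fin n)) (i : Fin n) :
    piece (fun i => x (h.symm i)) i = piece x (h.symm i) := by
  ext y
  unfold piece
  simp only [Set.mem_ofPred_eq]
  constructor
  · intro H l
    have := H (h l)
    simpa using this
  · intro H l
    exact H (h.symm l)

theorem cfg_act {n d : ℕ} (K : ℕ) (hK : 0 < K) (v : V n d) (c : Fin d) (A : Finset (Fin n))
    (h : Equiv.Perm (Fin n)) (hsep : Sep (K : ℤ) v c A) (hA : Shuf h A) :
    cfg (scl K (act h v)) = fun i => cfg (scl K v) (h.symm i) := by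
  have := Pool.Agent.H58.EF.EF7c (scl K v) A h hA (by
    intro i hi l hl
    have h1 := hsep i hi l hl
    have hKr : (0 : ℝ) < K := by exact_mod_cast hK
    have h2 : (v i c : ℝ) + K ≤ v l c := by exact_mod_cast h1
    have h3 : (1 : ℝ) ≤ dist (scl K v i c) (scl K v l c) := by
      unfold scl
      rw [Real.dist_eq, abs_sub_comm]
      refine le_trans ?_ (le_abs_self _)
      rw [← sub_div, le_div_iff₀ hKr]
      linarith
    exact le_trans h3 (dist_le_pi_dist _ _ c))
  exact this

theorem key0_inj {n d : ℕ} (x : Fin n → P d) (hx : Function.Injective x) (c : Fin d) :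
    Function.Injective (fun i => toLex ((x i).1 c, toLex ((x i).2, ordP (x i)))) := by
  intro i j hij
  have h1 := toLex.injective hij
  have h2 := toLex.injective (Prod.ext_iff.mp h1).2
  exact hx (ordP_inj (Prod.ext_iff.mp h2).2)

theorem keyf_inj {n d : ℕ} (x : Fin n → P d) (hx : Function.Injective x) (f : Fin n → ℝ) :
    Function.Injective (fun i => toLex (f i, ordP (x i))) := by
  intro i j hij
  have h1 := toLex.injective hij
  exact hx (ordP_inj (Prod.ext_iff.mp h1).2)

theorem g0_act {n d : ℕ} [NeZero n] (K : ℕ) (hK : 0 < K) (v : V n d) (c : Fin d)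
    (A : Finset (Fin n)) (h : Equiv.Perm (Fin n)) (hsep : Sep (K : ℤ) v c A) (hA : Shuf h A)
    (c' : Fin d) : g0 K (act h v) c' = h (g0 K v c') := by
  unfold g0
  rw [cfg_act K hK v c A h hsep hA]
  exact amax_perm _ (key0_inj _ (Pool.Agent.H58.EF.EF7a _) c') h

theorem gf_act {n d : ℕ} [NeZero n] (K : ℕ) (hK : 0 < K)
    (w : Fin d → Fin n → Set (EuclideanSpace ℝ (Fin d)) → ℝ) (v : V n d) (c : Fin d)
    (A : Finset (Fin n)) (h : Equiv.Perm (Fin n)) (hsep : Sep (K : ℤ) v c A) (hA : Shuf h A)
    (c' : Fin d) : gf K w (act h v) c' = h (gf K w v c') := by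
  unfold gf
  rw [cfg_act K hK v c A h hsep hA, owner_act]
  simp only [piece_perm]
  exact amax_perm (fun i => toLex (w c' (owner v) (piece (cfg (scl K v)) i),
    ordP (cfg (scl K v) i))) (keyf_inj _ (Pool.Agent.H58.EF.EF7a _) _) h

theorem inside_act_iff {n d : ℕ} (R : ℤ) (v : V n d) (h : Equiv.Perm (Fin n)) :
    Inside R (act h v) ↔ Inside R v := by
  constructor
  · intro H i c
    have := H (h i) c
    simpa [act] using this
  · exact inside_act h

theorem gm_compat {n d : ℕ} [NeZero n] (K : ℕ) (hK : 0 < K) (R : ℤ)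
    (w : Fin d → Fin n → Set (EuclideanSpace ℝ (Fin d)) → ℝ) :
    Compat (K : ℤ) (gm (n := n) (d := d) K R w) := by
  intro v c A h hsep hA c'
  unfold gm
  by_cases hin : Inside R v
  · rw [if_pos ((inside_act_iff R v h).mpr hin), if_pos hin]
    exact gf_act K hK w v c A h hsep hA c'
  · rw [if_neg (fun H => hin ((inside_act_iff R v h).mp H)), if_neg hin]
    exact g0_act K hK v c A h hsep hA c'

theorem g0_std {n d : ℕ} [NeZero n] (K : ℕ) (hK : 0 < K) (v : V n d) (c : Fin d) (i : Fin n) :
    v i c ≤ v (g0 K v c) c := by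
  have hKr : (0 : ℝ) < K := by exact_mod_cast hK
  have h := amax_spec (fun i => toLex ((cfg (scl K v) i).1 c,
    toLex ((cfg (scl K v) i).2, ordP (cfg (scl K v) i)))) i
  have h1 := Prod.Lex.monotone_fst _ _ h
  simp only [ofLex_toLex] at h1
  have h2 : (v i c : ℝ) / K ≤ (v (g0 K v c) c : ℝ) / K := h1
  rw [div_le_div_iff_of_pos_right hKr] at h2
  exact_mod_cast h2

theorem near_hgt {n d : ℕ} (K : ℕ) (hK : 2 * n < K) (v : V n d) (hv : Inside 1 v) (l i : Fin n)
    (hli : l < i) : hgt (scl K v) l < hgt (scl K v) i := by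
  have hKr : (0 : ℝ) < K := by
    have : 0 < K := by omega
    exact_mod_cast this
  have hd : ∀ a b : Fin n, dist (scl K v a) (scl K v b) ≤ 2 / K := by
    intro a b
    rw [dist_pi_le_iff (by positivity)]
    intro c
    unfold scl
    rw [Real.dist_eq, ← sub_div, abs_div, abs_of_pos hKr]
    apply div_le_div_of_nonneg_right _ hKr.le
    have h1 := abs_le.mp (hv a c)
    have h2 := abs_le.mp (hv b c)
    have h3 : |v a c - v b c| ≤ 2 := by
      rw [abs_le]; constructor <;> omega
    exact_mod_cast h3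
  have hk1 : ∀ a b : Fin n, kap (scl K v a) (scl K v b) ≤ 1 := by
    intro a b
    unfold kap
    apply max_le zero_le_one
    have := dist_nonneg (x := scl K v a) (y := scl K v b)
    linarith
  have hk2 : ∀ a b : Fin n, 1 - 2 / K ≤ kap (scl K v a) (scl K v b) := by
    intro a b
    unfold kap
    refine le_trans ?_ (le_max_right _ _)
    have := hd a b
    linarith
  have hcard : ∀ j : Fin n, (∑ a : Fin n, if a < j then (1 : ℝ) else 0) = (j : ℕ) := by
    intro j
    rw [Finset.sum_boole]
    congr 1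
    have : (Finset.univ.filter (fun a : Fin n => a < j)) = Finset.Iio j := by
      ext a
      simp
    rw [this, Fin.card_Iio]
  have hup : hgt (scl K v) l ≤ (l : ℕ) := by
    rw [← hcard l]
    unfold hgt
    apply Finset.sum_le_sum
    intro a _
    split_ifs
    · exact hk1 _ _
    · exact le_rfl
  have hlo : (1 - 2 / (K : ℝ)) * (i : ℕ) ≤ hgt (scl K v) i := by
    rw [← hcard i, Finset.mul_sum]
    unfold hgt
    apply Finset.sum_le_sum
    intro a _
    split_ifs
    · rw [mul_one]
      exact hk2 _ _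
    · simp
  have h1 : (2 : ℝ) / K * (i : ℕ) < 1 := by
    rw [div_mul_eq_mul_div, div_lt_one hKr]
    have : 2 * (i : ℕ) < K := by have := i.isLt; omega
    exact_mod_cast this
  have h2 : ((l : ℕ) : ℝ) + 1 ≤ (i : ℕ) := by
    have : (l : ℕ) + 1 ≤ (i : ℕ) := hli
    exact_mod_cast this
  nlinarith

theorem g0_near {n d : ℕ} [NeZero n] (K : ℕ) (hK : 2 * n < K) (v : V n d) (hv : Inside 1 v)
    (c : Fin d) (i : Fin n) (h : v i c = v (g0 K v c) c) : i ≤ g0 K v c := by
  by_contra hlt
  push Not at hlt
  have h1 := near_hgt K hK v hv _ _ hlt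
  have h2 := amax_spec (fun i => toLex ((cfg (scl K v) i).1 c,
    toLex ((cfg (scl K v) i).2, ordP (cfg (scl K v) i)))) i
  have h3 : toLex ((cfg (scl K v) i).1 c, toLex ((cfg (scl K v) i).2, ordP (cfg (scl K v) i)))
    ≤ toLex ((cfg (scl K v) (g0 K v c)).1 c, toLex ((cfg (scl K v) (g0 K v c)).2,
      ordP (cfg (scl K v) (g0 K v c)))) := h2
  rw [Prod.Lex.toLex_le_toLex] at h3
  have he : (cfg (scl K v) i).1 c = (cfg (scl K v) (g0 K v c)).1 c := by
    unfold cfg scl
    simp only
    rw [h]
  rcases h3 with h3 | ⟨_, h3⟩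
  · rw [he] at h3
    exact lt_irrefl _ h3
  · rw [Prod.Lex.toLex_le_toLex] at h3
    have h4 : (cfg (scl K v) (g0 K v c)).2 < (cfg (scl K v) i).2 := h1
    rcases h3 with h3 | ⟨h3, _⟩
    · exact lt_asymm h3 h4
    · exact absurd h3 (ne_of_gt h4)

end Pool.Agent.H62.EF
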